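import Pool.Agent.P.MP_80f86c_co.K3Upper
import Pool.Agent.P.MP_80f86c_co.K3Lower

/-!
The order of magnitude of `mex_{K_s}(m, K_{3,b})` is `m^{6/5}` whenever `s ≤ r^2 + 1` and
`b > 2 (r - 1)^2` for some prime power `r`. With `r = 2` this is every `b ≥ 3` and `s ∈ {3, 4, 5}`.
-/

namespace Pool.Agent.P.MP_80f86c_co.Old.KThreeB

open SimpleGraph Asymptotics Filter Pool.Agent.P.MP_80f86c_co

theorem result (s b r : ℕ) (hs : 3 ≤ s) (hr : IsPrimePow r) (hsr : s ≤ r ^ 2 + 1)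
    (hb : 2 * (r - 1) ^ 2 < b) :
    (fun m : ℕ => (mex s m (completeBipartiteGraph (Fin 3) (Fin b)) : ℝ)) =Θ[atTop]
      (fun m : ℕ => (m : ℝ) ^ (6 / 5 : ℝ)) :=
  ⟨mex_K3b_isBigO hs b, rpow_isBigO_mex_K3b hs hr hsr hb⟩

end Pool.Agent.P.MP_80f86c_co.Old.KThreeB
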