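import Pool.Agent.P.MP_80f86c_co.Fans

/-!
The order of magnitude of `mex_{K_s}(m, K_{a,b})` when the smaller side has at most two vertices.
-/

namespace Pool.Agent.P.MP_80f86c_co.Old.KTwoB

open SimpleGraph Asymptotics Filter Pool.Agent.P.MP_80f86c_co

theorem result (s a b : ℕ) (hs : 3 ≤ s) (ha1 : 1 ≤ a) (ha2 : a ≤ 2) (hb : 1 ≤ b) :
    (s < a + b → (fun m : ℕ => (mex s m (completeBipartiteGraph (Fin a) (Fin b)) : ℝ)) =Θ[atTop]
      (fun m : ℕ => (m : ℝ))) ∧
    (a + b ≤ s → ∀ m : ℕ, mex s m (completeBipartiteGraph (Fin a) (Fin b)) = 0) := by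
  refine ⟨fun h => ⟨?_, ?_⟩, fun h m => ?_⟩
  · exact mex_isBigO_linear (completeBipartite_le_book a b) (book_simplicial a b)
      (book_cliqueFree ha1 ha2 b) (by omega)
  · exact linear_isBigO_mex_of_connected (by omega) (completeBipartite_preconnected ha1 hb)
      (by simpa using h)
  · exact mex_eq_zero (isContained_top_of_card_le _ (by simpa using h)) m

end Pool.Agent.P.MP_80f86c_co.Old.KTwoB
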