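import Pool.Agent.P.MP_80f86c_co.CosetGraph

/-!
Triangles: `mex_{K_3}(m, F)` is `O(m)` exactly when `F` has treewidth at most two, and it is
superlinear otherwise.
-/

namespace Pool.Agent.Results.MP_80f86c_co.TriangleDichotomy

open SimpleGraph Asymptotics Filter Pool.Agent.P.MP_80f86c_co

theorem result (n : ℕ) (F : SimpleGraph (Fin n)) :
    (TreewidthLeTwo F →
      (fun m : ℕ => (mex 3 m F : ℝ)) =O[atTop] (fun m : ℕ => (m : ℝ))) ∧
    (¬ TreewidthLeTwo F →
      (fun m : ℕ => (m : ℝ)) =o[atTop] (fun m : ℕ => (mex 3 m F : ℝ))) := by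
  refine ⟨?_, linear_isLittleO_mex⟩
  rintro ⟨H, hFH, hch, h4⟩
  exact mex_isBigO_linear hFH hch.simplicial h4 (by norm_num)

end Pool.Agent.Results.MP_80f86c_co.TriangleDichotomy
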